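import Pool.Agent.H60EQ.Core

/-!
# Torus-equivariant symplectic embeddings of ellipsoids
-/

open Set
open scoped ENNReal

namespace Pool.Agent.Results.MP_aa1c68_gt.TorusEquivariant

open Pool.Agent.H60EQ

/-- **Equivariant symplectic embeddings of ellipsoids.**

Let the torus `Tᵏ` act linearly on `ℂⁿ` through characters `χ_1, …, χ_n ∈ ℤᵏ`, all nonzero and
such that no `χ_j` is an integer multiple of a `χ_i ≠ χ_j`, and let `a, b ∈ (0, ∞]ⁿ` (not
necessarily monotone).  The following are equivalent: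

* there is a `Tᵏ`-equivariant symplectic embedding `E(a) → E(b)`;
* there is a `Tᵏ`-equivariant differentiable symplectic map `E(a) → E(b)`;
* there is a permutation `σ` with `χ_{σ(j)} = χ_j` and `a_j ≤ b_{σ(j)}` for all `j`.

For instance, for the scalar circle action `z ↦ exp (i t) z` (`k = 1` and all `χ_j = 1`) the last
condition says that the `i`-th smallest of the `a_j` is at most the `i`-th smallest of the `b_j`,
for every `i`. -/
theorem result (n k : ℕ) (χ : Fin n → Fin k → ℤ) (hχ0 : ∀ i, χ i ≠ 0)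
    (hχ : ∀ i j, (∃ m : ℤ, χ j = m • χ i) → χ j = χ i)
    (a b : Fin n → ℝ≥0∞) (ha : ∀ j, 0 < a j) (hb : ∀ j, 0 < b j) :
    List.TFAE [
      ∃ φ : (Fin n → ℂ) → (Fin n → ℂ), IsSymplecticEmbedding (Ellipsoid a) (Ellipsoid b) φ ∧
        ∀ t : Fin k → ℝ, ∀ z ∈ Ellipsoid a, φ (act χ t z) = act χ t (φ z),
      ∃ φ : (Fin n → ℂ) → (Fin n → ℂ), IsSymplecticMap (Ellipsoid a) (Ellipsoid b) φ ∧
        ∀ t : Fin k → ℝ, ∀ z ∈ Ellipsoid a, φ (act χ t z) = act χ t (φ z),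
      ∃ σ : Equiv.Perm (Fin n), (∀ j, χ (σ j) = χ j) ∧ ∀ j, a j ≤ b (σ j)] := by
  rw [ellipsoid_eq a ha, ellipsoid_eq b hb]
  have hle : ∀ i j, a j ≤ b i ↔ ((b i)⁻¹).toReal ≤ ((a j)⁻¹).toReal := by
    intro i j
    rw [ENNReal.toReal_le_toReal (ENNReal.inv_ne_top.2 (hb i).ne')
      (ENNReal.inv_ne_top.2 (ha j).ne'), ENNReal.inv_le_inv]
  tfae_have 1 → 2 := by
    rintro ⟨φ, hφ, he⟩
    exact ⟨φ, hφ.toIsSymplecticMap, he⟩
  tfae_have 2 → 3 := by
    rintro ⟨φ, hφ, he⟩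
    obtain ⟨σ, hσ1, hσ2⟩ := exists_perm_of_map hχ0 hχ (fun j => ENNReal.toReal_nonneg) hφ he
    exact ⟨σ, hσ1, fun j => (hle _ _).2 (hσ2 j)⟩
  tfae_have 3 → 1 := by
    rintro ⟨σ, hσ1, hσ2⟩
    refine ⟨_, perm_embedding σ fun j => (hle _ _).1 (hσ2 j), ?_⟩
    intro t z _
    exact act_perm hσ1 t z
  tfae_finish

end Pool.Agent.Results.MP_aa1c68_gt.TorusEquivariant
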